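import Pool.Agent.H15.HLS.Targets

/-!
# Row REL of the board hls_modules: powers of four satisfy the relation only trivially
-/

namespace Pool.Agent.H4.HLS

open Pool.Agent.H51.Homog Pool.Agent.H22.HSQ Pool.Agent.H15.HLS

lemma rel_nat : ∀ a b c : ℕ, 4 ^ b + 2 * 4 ^ c = 3 * 4 ^ a → a = b ∧ b = c := by
  intro a
  induction a with
  | zero =>
    intro b c h
    rcases b with _ | b
    · rcases c with _ | c
      · exact ⟨rfl, rfl⟩
      · have h1 : 0 < 4 ^ c := by positivity
        rw [pow_succ] at h
        simp only [pow_zero] at h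
        omega
    · have h1 : 0 < 4 ^ b := by positivity
      rw [pow_succ 4 b] at h
      simp only [pow_zero] at h
      omega
  | succ a ih =>
    intro b c h
    rcases b with _ | b
    · rcases c with _ | c
      · rw [pow_succ] at h
        simp only [pow_zero] at h
        have h1 : 0 < 4 ^ a := by positivity
        omega
      · rw [pow_succ 4 a, pow_succ 4 c] at h
        simp only [pow_zero] at h
        omega
    · rcases c with _ | c
      · rw [pow_succ 4 a, pow_succ 4 b] at h
        simp only [pow_zero] at h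
        omega
      · rw [pow_succ 4 a, pow_succ 4 b, pow_succ 4 c] at h
        obtain ⟨h1, h2⟩ := ih b c (by omega)
        omega

theorem pf_REL : T_REL := by
  intro τ v a b c hv ha hb hc h
  refine rel_nat a b c ?_
  have h1 : ((4 ^ b + 2 * 4 ^ c : ℕ) : ZMod v) = ((3 * 4 ^ a : ℕ) : ZMod v) := by
    push_cast
    push_cast at h
    exact h
  rw [ZMod.natCast_eq_natCast_iff'] at h1
  have ka : 4 ^ a < 4 ^ τ := Nat.pow_lt_pow_right (by norm_num) ha
  have kb : 4 ^ b < 4 ^ τ := Nat.pow_lt_pow_right (by norm_num) hb
  have kc : 4 ^ c < 4 ^ τ := Nat.pow_lt_pow_right (by norm_num) hc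
  rw [Nat.mod_eq_of_lt (by omega), Nat.mod_eq_of_lt (by omega)] at h1
  exact h1

end Pool.Agent.H4.HLS
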